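import Mathlib

/-!
# Grafting families of maps: averages over boxes
-/

set_option autoImplicit false
set_option linter.unusedSectionVars false

open MeasureTheory Filter Topology

noncomputable section

namespace Pool.Agent.Helper34.GR

/-! ## Averages over boxes -/

section Box

variable {K : Type*} [Fintype K] [DecidableEq K]

/-- the average of `a` over the box `∏ [1, M l]` -/
def bav (M : K → ℕ) (a : (K → ℕ) → ℂ) : ℂ :=
  (∏ l, (M l : ℂ))⁻¹ * ∑ m ∈ Fintype.piFinset (fun l => Finset.Icc 1 (M l)), a m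

/-- the same for real arrays -/
def rav (M : K → ℕ) (a : (K → ℕ) → ℝ) : ℝ :=
  (∏ l, (M l : ℝ))⁻¹ * ∑ m ∈ Fintype.piFinset (fun l => Finset.Icc 1 (M l)), a m

theorem card_box (M : K → ℕ) :
    (Fintype.piFinset (fun l => Finset.Icc 1 (M l))).card = ∏ l, M l := by
  rw [Fintype.card_piFinset]
  exact Finset.prod_congr rfl fun l _ => by rw [Nat.card_Icc, Nat.add_sub_cancel]

theorem bav_norm (M : K → ℕ) (a : (K → ℕ) → ℂ) : ‖bav M a‖ ≤ rav M fun m => ‖a m‖ := by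
  unfold bav rav
  rw [norm_mul, norm_inv, norm_prod]
  simp only [Complex.norm_natCast]
  exact mul_le_mul_of_nonneg_left (norm_sum_le _ _) (by positivity)

theorem rav_mono (M : K → ℕ) {a b : (K → ℕ) → ℝ} (h : ∀ m, a m ≤ b m) : rav M a ≤ rav M b :=
  mul_le_mul_of_nonneg_left (Finset.sum_le_sum fun m _ => h m) (by positivity)

theorem rav_nonneg (M : K → ℕ) {a : (K → ℕ) → ℝ} (h : ∀ m, 0 ≤ a m) : 0 ≤ rav M a :=
  mul_nonneg (by positivity) (Finset.sum_nonneg fun m _ => h m)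

theorem rav_le {M : K → ℕ} {a : (K → ℕ) → ℝ} {C : ℝ} (hC : 0 ≤ C) (h : ∀ m, a m ≤ C) :
    rav M a ≤ C := by
  unfold rav
  rcases (Finset.prod_nonneg (s := Finset.univ) fun l _ => (Nat.cast_nonneg (M l) : (0 : ℝ) ≤ M l)).eq_or_lt
    with h0 | h0
  · rw [← h0, inv_zero, zero_mul]
    exact hC
  · have h1 : ∑ m ∈ Fintype.piFinset (fun l => Finset.Icc 1 (M l)), a m ≤ (∏ l, (M l : ℝ)) * C := by
      refine (Finset.sum_le_sum fun m _ => h m).trans ?_
      rw [Finset.sum_const, nsmul_eq_mul, card_box, Nat.cast_prod]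
    calc (∏ l, (M l : ℝ))⁻¹ * ∑ m ∈ Fintype.piFinset (fun l => Finset.Icc 1 (M l)), a m
        ≤ (∏ l, (M l : ℝ))⁻¹ * ((∏ l, (M l : ℝ)) * C) :=
          mul_le_mul_of_nonneg_left h1 (by positivity)
      _ = C := by rw [← mul_assoc, inv_mul_cancel₀ h0.ne', one_mul]

theorem bav_bound {M : K → ℕ} {a : (K → ℕ) → ℂ} {C : ℝ} (hC : 0 ≤ C) (h : ∀ m, ‖a m‖ ≤ C) :
    ‖bav M a‖ ≤ C := (bav_norm M a).trans (rav_le hC h)

theorem bav_sub (M : K → ℕ) (a b : (K → ℕ) → ℂ) :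
    bav M (fun m => a m - b m) = bav M a - bav M b := by
  unfold bav
  rw [Finset.sum_sub_distrib, mul_sub]

theorem rav_mul (M : K → ℕ) (c : ℝ) (a : (K → ℕ) → ℝ) :
    rav M (fun m => c * a m) = c * rav M a := by
  unfold rav
  rw [← Finset.mul_sum]
  ring

theorem rav_sum {I : Type*} (s : Finset I) (M : K → ℕ) (a : I → (K → ℕ) → ℝ) :
    rav M (fun m => ∑ i ∈ s, a i m) = ∑ i ∈ s, rav M (a i) := by
  unfold rav
  rw [Finset.sum_comm, Finset.mul_sum]

theorem bav_ofReal (M : K → ℕ) (a : (K → ℕ) → ℝ) :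
    bav M (fun m => (a m : ℂ)) = (rav M a : ℂ) := by
  unfold bav rav
  push_cast
  rfl

end Box

/-! ## Products -/

theorem prod_sub_prod {I : Type*} (s : Finset I) (a b : I → ℂ) {C : ℝ} (hC : 1 ≤ C)
    (ha : ∀ i, ‖a i‖ ≤ C) (hb : ∀ i, ‖b i‖ ≤ C) :
    ‖∏ i ∈ s, a i - ∏ i ∈ s, b i‖ ≤ C ^ s.card * ∑ i ∈ s, ‖a i - b i‖ := by
  classical
  induction s using Finset.induction_on with
  | empty => simp
  | insert i s hi ih =>
    rw [Finset.prod_insert hi, Finset.prod_insert hi, Finset.card_insert_of_notMem hi,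
      Finset.sum_insert hi]
    have h1 : a i * ∏ j ∈ s, a j - b i * ∏ j ∈ s, b j =
        (a i - b i) * ∏ j ∈ s, a j + b i * (∏ j ∈ s, a j - ∏ j ∈ s, b j) := by ring
    rw [h1]
    have h2 : ‖∏ j ∈ s, a j‖ ≤ C ^ s.card := by
      rw [norm_prod, ← Finset.prod_const]
      exact Finset.prod_le_prod (fun _ _ => norm_nonneg _) fun j _ => ha j
    have hC0 : 0 ≤ C := by linarith
    have h3 : 0 ≤ ∑ j ∈ s, ‖a j - b j‖ := Finset.sum_nonneg fun _ _ => norm_nonneg _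
    have h4 : C ^ s.card ≤ C ^ (s.card + 1) := pow_le_pow_right₀ hC (Nat.le_succ _)
    refine (norm_add_le _ _).trans ?_
    rw [norm_mul, norm_mul, mul_add]
    refine add_le_add ?_ ?_
    · rw [mul_comm]
      exact mul_le_mul (h2.trans h4) le_rfl (norm_nonneg _) (by positivity)
    · calc ‖b i‖ * ‖∏ j ∈ s, a j - ∏ j ∈ s, b j‖
          ≤ C * (C ^ s.card * ∑ j ∈ s, ‖a j - b j‖) :=
            mul_le_mul (hb i) ih (norm_nonneg _) hC0
        _ = C ^ (s.card + 1) * ∑ j ∈ s, ‖a j - b j‖ := by rw [pow_succ]; ring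

/-! ## Families -/

/-- The average of `∏ f_i (Q_i(m) x)` over `m` in the box `∏ [1, M l]`. -/
def avg {X K I : Type*} [Fintype K] [DecidableEq K] [Fintype I] (Q : I → (K → ℕ) → X → X)
    (f : I → X → ℂ) (M : K → ℕ) (x : X) : ℂ :=
  (∏ l, (M l : ℂ))⁻¹ * ∑ m ∈ Fintype.piFinset (fun l => Finset.Icc 1 (M l)), ∏ i, f i (Q i m x)

/-- The averages converge almost everywhere, for all bounded functions. -/
def Convergent {X K I : Type*} [MeasurableSpace X] (μ : Measure X) [Fintype K] [DecidableEq K]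
    [Fintype I] (Q : I → (K → ℕ) → X → X) : Prop :=
  ∀ f : I → X → ℂ, (∀ i, MemLp (f i) ⊤ μ) →
    ∀ᵐ x ∂μ, ∃ L : ℂ, Tendsto (fun M : K → ℕ => avg Q f M x) atTop (𝓝 L)

/-- The families `R_i` are grafted on the members `Q_i` of the family `Q`. -/
def graft {X K I : Type*} {J L : I → Type*} (Q : I → (K → ℕ) → X → X)
    (R : ∀ i, J i → (L i → ℕ) → X → X) :
    (Σ i, J i) → ((K ⊕ Σ i, L i) → ℕ) → X → X :=
  fun c m x => R c.1 c.2 (fun l => m (Sum.inr ⟨c.1, l⟩)) (Q c.1 (fun l => m (Sum.inl l)) x)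

variable {X K I : Type*} {J L : I → Type*}
  [Fintype K] [DecidableEq K] [Fintype I] [DecidableEq I] [∀ i, Fintype (J i)]
  [∀ i, Fintype (L i)] [∀ i, DecidableEq (L i)]

/-- averages of the grafted family -/
theorem avg_graft (Q : I → (K → ℕ) → X → X) (R : ∀ i, J i → (L i → ℕ) → X → X)
    (f : (Σ i, J i) → X → ℂ) (M : (K ⊕ Σ i, L i) → ℕ) (x : X) :
    avg (graft Q R) f M x = bav (fun l => M (Sum.inl l)) fun m =>
      ∏ i, avg (R i) (fun j => f ⟨i, j⟩) (fun l => M (Sum.inr ⟨i, l⟩)) (Q i m x) := by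
  unfold avg bav
  have h1 : ∏ l : K ⊕ Σ i, L i, (M l : ℂ) = (∏ l : K, (M (Sum.inl l) : ℂ)) *
      ∏ i, ∏ l : L i, (M (Sum.inr ⟨i, l⟩) : ℂ) := by
    rw [Fintype.prod_sum_type, Fintype.prod_sigma]
  rw [h1, mul_inv, mul_assoc]
  congr 1
  simp only [Finset.prod_mul_distrib]
  rw [← Finset.mul_sum, Finset.prod_inv_distrib]
  congr 1
  simp only [Finset.prod_univ_sum]
  rw [← Finset.sum_product']
  refine Finset.sum_nbij' (fun m => (fun l => m (Sum.inl l), fun i l => m (Sum.inr ⟨i, l⟩)))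
    (fun p => Sum.elim p.1 (fun c => p.2 c.1 c.2)) ?_ ?_ ?_ ?_ ?_
  · intro m hm
    rw [Fintype.mem_piFinset] at hm
    rw [Finset.mem_product, Fintype.mem_piFinset, Fintype.mem_piFinset]
    refine ⟨fun l => hm _, fun i => ?_⟩
    rw [Fintype.mem_piFinset]
    exact fun l => hm _
  · intro p hp
    rw [Finset.mem_product, Fintype.mem_piFinset, Fintype.mem_piFinset] at hp
    rw [Fintype.mem_piFinset]
    rintro (l | ⟨i, l⟩)
    · exact hp.1 l
    · exact (Fintype.mem_piFinset.1 (hp.2 i)) l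
  · intro m _
    funext c
    rcases c with l | ⟨i, l⟩ <;> rfl
  · intro p _
    rfl
  · intro m _
    rw [Fintype.prod_sigma]
    rfl

end Pool.Agent.Helper34.GR
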