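import Pool.Agent.Helper34.GR.Base

/-!
# Grafting families of maps: almost everywhere convergence
-/

set_option autoImplicit false
set_option linter.unusedSectionVars false

open MeasureTheory Filter Topology

noncomputable section

namespace Pool.Agent.Helper34.GR

variable {X : Type*} [MeasurableSpace X] {μ : Measure X} [IsProbabilityMeasure μ]

/-! ## The averages -/

section One

variable {K I : Type*} [Fintype K] [DecidableEq K] [Fintype I] [DecidableEq I]

theorem avg_meas {Q : I → (K → ℕ) → X → X} (hQ : ∀ i m, MeasurePreserving (Q i m) μ μ)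
    {f : I → X → ℂ} (hf : ∀ i, Measurable (f i)) (M : K → ℕ) : Measurable (avg Q f M) := by
  unfold avg
  exact (Finset.measurable_fun_sum _ fun m _ => Finset.measurable_fun_prod _ fun i _ =>
    (hf i).comp (hQ i m).measurable).const_mul _

theorem avg_bound {Q : I → (K → ℕ) → X → X} {f : I → X → ℂ} {C : ℝ} (hC : 1 ≤ C)
    (hf : ∀ i x, ‖f i x‖ ≤ C) (M : K → ℕ) (x : X) : ‖avg Q f M x‖ ≤ C ^ Fintype.card I := by
  refine bav_bound (by positivity) fun m => ?_
  rw [norm_prod, Fintype.card, ← Finset.prod_const]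
  exact Finset.prod_le_prod (fun _ _ => norm_nonneg _) fun i _ => hf i _

/-- changing the functions on null sets -/
theorem avg_congr {Q : I → (K → ℕ) → X → X} (hQ : ∀ i m, MeasurePreserving (Q i m) μ μ)
    {f g : I → X → ℂ} (h : ∀ i, f i =ᵐ[μ] g i) : ∀ᵐ x ∂μ, ∀ M, avg Q f M x = avg Q g M x := by
  have h1 : ∀ᵐ x ∂μ, ∀ i, ∀ m, f i (Q i m x) = g i (Q i m x) := by
    rw [ae_all_iff]
    intro i
    rw [ae_all_iff]
    intro m
    exact (hQ i m).quasiMeasurePreserving.ae (h i)
  filter_upwards [h1] with x hx M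
  unfold avg
  simp only [hx]

/-- a convergent family has convergent members -/
theorem single {Q : I → (K → ℕ) → X → X} (hc : Convergent μ Q) (i : I) :
    Convergent μ (fun _ : Unit => Q i) := by
  classical
  intro f hf
  let f' : I → X → ℂ := fun j => if j = i then f () else fun _ => 1
  have hf' : ∀ j, MemLp (f' j) ⊤ μ := by
    intro j
    by_cases hj : j = i
    · simp only [f', if_pos hj]
      exact hf ()
    · simp only [f', if_neg hj]
      exact memLp_const 1
  filter_upwards [hc f' hf'] with x hx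
  obtain ⟨L, hL⟩ := hx
  refine ⟨L, hL.congr fun M => ?_⟩
  unfold avg
  congr 1
  refine Finset.sum_congr rfl fun m _ => ?_
  rw [Finset.prod_eq_single i]
  · simp only [f', if_true, Finset.univ_unique, Finset.prod_singleton]
  · intro j _ hj
    simp only [f', if_neg hj]
  · intro h
    exact absurd (Finset.mem_univ _) h

/-- **Control of suprema.** If the averages of single functions along `q` converge and `D N` are
bounded nonnegative functions tending to zero, then the upper limits of the averages of `D N` along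
`q` are small. -/
theorem control {q : (K → ℕ) → X → X} (hQ : ∀ m, MeasurePreserving (q m) μ μ)
    (hc : Convergent μ (fun _ : Unit => q)) {D : ℕ → X → ℝ} (hDm : ∀ N, Measurable (D N)) {C : ℝ}
    (hD0 : ∀ N x, 0 ≤ D N x) (hDC : ∀ N x, D N x ≤ C)
    (hD : ∀ᵐ x ∂μ, Tendsto (fun N => D N x) atTop (𝓝 0)) :
    ∀ᵐ x ∂μ, ∀ ε : ℝ, 0 < ε → ∃ N : ℕ, ∀ᶠ M : K → ℕ in atTop,
      rav M (fun m => D N (q m x)) < ε := by
  classical
  have hC : 0 ≤ C := by
    rcases isEmpty_or_nonempty X with h | ⟨⟨x⟩⟩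
    · exfalso
      have h1 : μ Set.univ = 1 := measure_univ
      rw [Set.univ_eq_empty_iff.2 h, measure_empty] at h1
      exact zero_ne_one h1
    · exact (hD0 0 x).trans (hDC 0 x)
  have hint : Tendsto (fun N => ∫ x, D N x ∂μ) atTop (𝓝 0) := by
    have h1 := tendsto_integral_of_dominated_convergence (μ := μ) (F := D) (f := fun _ => (0 : ℝ))
      (fun _ => C) (fun N => (hDm N).aestronglyMeasurable) (integrable_const _)
      (fun N => Eventually.of_forall fun x => by
        rw [Real.norm_eq_abs, abs_of_nonneg (hD0 N x)]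
        exact hDC N x) hD
    simpa using h1
  -- limits
  have hlim : ∀ N, ∀ᵐ x ∂μ, ∃ γ : ℝ, Tendsto (fun M : K → ℕ => rav M fun m => D N (q m x)) atTop
      (𝓝 γ) := by
    intro N
    filter_upwards [hc (fun _ x => (D N x : ℂ)) fun _ =>
      memLp_top_of_bound (Complex.measurable_ofReal.comp (hDm N)).aestronglyMeasurable C
        (Eventually.of_forall fun x => by
          show ‖((D N x : ℝ) : ℂ)‖ ≤ C
          rw [Complex.norm_real, Real.norm_eq_abs, abs_of_nonneg (hD0 N x)]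
          exact hDC N x)] with x hx
    obtain ⟨L, hL⟩ := hx
    refine ⟨L.re, ?_⟩
    have h2 : ∀ M : K → ℕ, avg (fun _ : Unit => q) (fun _ x => (D N x : ℂ)) M x =
        (rav M (fun m => D N (q m x)) : ℂ) := by
      intro M
      rw [← bav_ofReal]
      unfold avg bav
      congr 1
      refine Finset.sum_congr rfl fun m _ => ?_
      simp
    have h3 := (Complex.continuous_re.tendsto L).comp hL
    refine h3.congr fun M => ?_
    rw [Function.comp_apply, h2, Complex.ofReal_re]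
  let γ : ℕ → X → ℝ := fun N x => limUnder atTop (fun M : K → ℕ => rav M fun m => D N (q m x))
  have hγ : ∀ N, ∀ᵐ x ∂μ, Tendsto (fun M : K → ℕ => rav M fun m => D N (q m x)) atTop
      (𝓝 (γ N x)) := by
    intro N
    filter_upwards [hlim N] with x hx
    exact tendsto_nhds_limUnder hx
  -- the integrals of the limits
  have hdiag : Tendsto (fun n : ℕ => (fun _ : K => n)) atTop atTop :=
    tendsto_atTop_atTop.2 fun b => ⟨Finset.univ.sup b, fun a ha l =>
      (Finset.le_sup (Finset.mem_univ l)).trans ha⟩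
  have hrm : ∀ N (M : K → ℕ), Measurable fun x => rav M fun m => D N (q m x) := by
    intro N M
    unfold rav
    exact (Finset.measurable_fun_sum _ fun m _ => (hDm N).comp (hQ m).measurable).const_mul _
  have hγd : ∀ N, ∀ᵐ x ∂μ, Tendsto (fun n : ℕ => rav (fun _ : K => n) fun m => D N (q m x)) atTop
      (𝓝 (γ N x)) := fun N => by
    filter_upwards [hγ N] with x hx
    exact hx.comp hdiag
  have hγm : ∀ N, AEStronglyMeasurable (γ N) μ := fun N =>
    aestronglyMeasurable_of_tendsto_ae atTop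
      (fun n => (hrm N (fun _ => n)).aestronglyMeasurable) (hγd N)
  have hγ0 : ∀ N, 0 ≤ᵐ[μ] γ N := fun N => by
    filter_upwards [hγd N] with x hx
    exact ge_of_tendsto' hx fun n => rav_nonneg _ fun m => hD0 N _
  have hγC : ∀ N, ∀ᵐ x ∂μ, ‖γ N x‖ ≤ C := fun N => by
    filter_upwards [hγd N, hγ0 N] with x hx h0
    rw [Real.norm_eq_abs, abs_of_nonneg h0]
    exact le_of_tendsto' hx fun n => rav_le hC fun m => hDC N _
  have hγi : ∀ N, Integrable (γ N) μ := fun N =>
    (memLp_top_of_bound (hγm N) C (hγC N)).integrable (by simp)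
  have hDi : ∀ N, Integrable (D N) μ := fun N =>
    (memLp_top_of_bound (hDm N).aestronglyMeasurable C (Eventually.of_forall fun x => by
      rw [Real.norm_eq_abs, abs_of_nonneg (hD0 N x)]
      exact hDC N x)).integrable (by simp)
  have hγI : ∀ N, ∫ x, γ N x ∂μ ≤ ∫ x, D N x ∂μ := by
    intro N
    have h1 := tendsto_integral_of_dominated_convergence (μ := μ)
      (F := fun n x => rav (fun _ : K => n) fun m => D N (q m x)) (f := γ N)
      (fun _ => C) (fun n => (hrm N (fun _ => n)).aestronglyMeasurable) (integrable_const _)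
      (fun n => Eventually.of_forall fun x => by
        rw [Real.norm_eq_abs, abs_of_nonneg (rav_nonneg _ fun m => hD0 N _)]
        exact rav_le hC fun m => hDC N _) (hγd N)
    refine le_of_tendsto' h1 fun n => ?_
    have h2 : ∫ x, rav (fun _ : K => n) (fun m => D N (q m x)) ∂μ =
        rav (fun _ : K => n) (fun _ => ∫ x, D N x ∂μ) := by
      unfold rav
      rw [integral_const_mul, integral_finsetSum]
      · congr 1
        refine Finset.sum_congr rfl fun m _ => ?_
        have h4 := integral_map (μ := μ) (hQ m).measurable.aemeasurable (f := D N) (by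
          rw [(hQ m).map_eq]
          exact (hDm N).aestronglyMeasurable)
        rw [(hQ m).map_eq] at h4
        exact h4.symm
      · intro m _
        exact (hQ m).integrable_comp_of_integrable (hDi N)
    rw [h2]
    exact rav_le (integral_nonneg (hD0 N)) fun _ => le_rfl
  have hsmall : ∀ ε : ℝ, 0 < ε → ∀ᵐ x ∂μ, ∃ N, γ N x < ε := by
    intro ε hε
    rw [ae_iff, ← nonpos_iff_eq_zero]
    apply ENNReal.le_of_forall_pos_le_add
    intro δ hδ _
    rw [zero_add]
    have hδ' : (0 : ℝ) < δ := by exact_mod_cast hδ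
    obtain ⟨N, hN⟩ := ((tendsto_order.mp hint).2 (ε * δ) (by positivity)).exists
    have hmk := mul_meas_ge_le_integral_of_nonneg (hγ0 N) (hγi N) ε
    have h3 : μ.real {x | ε ≤ γ N x} ≤ δ := by
      have h4 : ε * μ.real {x | ε ≤ γ N x} ≤ ε * δ := hmk.trans ((hγI N).trans hN.le)
      exact le_of_mul_le_mul_left h4 hε
    refine (measure_mono (t := {x | ε ≤ γ N x}) fun x hx => ?_).trans ?_
    · by_contra hcon
      exact hx ⟨N, not_le.mp hcon⟩
    · have h20 : μ {x | ε ≤ γ N x} = ENNReal.ofReal (μ.real {x | ε ≤ γ N x}) := by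
        rw [measureReal_def, ENNReal.ofReal_toReal (measure_ne_top _ _)]
      rw [h20]
      calc ENNReal.ofReal (μ.real {x | ε ≤ γ N x}) ≤ ENNReal.ofReal (δ : ℝ) :=
            ENNReal.ofReal_le_ofReal h3
        _ = δ := ENNReal.ofReal_coe_nnreal
  have hall : ∀ᵐ x ∂μ, ∀ n : ℕ, ∃ N, γ N x < 1 / ((n : ℝ) + 1) :=
    ae_all_iff.mpr fun n => hsmall _ (by positivity)
  have hγall : ∀ᵐ x ∂μ, ∀ N, Tendsto (fun M : K → ℕ => rav M fun m => D N (q m x)) atTop
      (𝓝 (γ N x)) := ae_all_iff.mpr hγ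
  filter_upwards [hall, hγall] with x hx1 hx2 ε hε
  obtain ⟨n, hn⟩ := exists_nat_one_div_lt hε
  obtain ⟨N, hN⟩ := hx1 n
  exact ⟨N, (tendsto_order.mp (hx2 N)).2 ε (hN.trans hn)⟩

end One

/-! ## Grafting -/

section Two

variable {K I : Type*} {J L : I → Type*}
  [Fintype K] [DecidableEq K] [Fintype I] [DecidableEq I] [∀ i, Fintype (J i)]
  [∀ i, DecidableEq (J i)] [∀ i, Fintype (L i)] [∀ i, DecidableEq (L i)]

/-- bounded everywhere and measurable functions -/
theorem graft_core {Q : I → (K → ℕ) → X → X} {R : ∀ i, J i → (L i → ℕ) → X → X}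
    (hQ : ∀ i m, MeasurePreserving (Q i m) μ μ) (hR : ∀ i j m, MeasurePreserving (R i j m) μ μ)
    (hQc : ∀ i, Convergent μ (fun _ : Unit => Q i)) {f : (Σ i, J i) → X → ℂ} {F : I → X → ℂ}
    {C : ℝ} (hC : 1 ≤ C)
    (hfm : ∀ c, Measurable (f c)) (hfC : ∀ c x, ‖f c x‖ ≤ C)
    (hFm : ∀ i, Measurable (F i)) (hFC : ∀ i x, ‖F i x‖ ≤ C ^ Fintype.card (J i))
    (hF : ∀ i, ∀ᵐ x ∂μ, Tendsto (fun M : L i → ℕ => avg (R i) (fun j => f ⟨i, j⟩) M x) atTop
      (𝓝 (F i x))) :
    ∀ᵐ x ∂μ, Tendsto (fun M : (K ⊕ Σ i, L i) → ℕ => avg (graft Q R) f M x -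
      avg Q F (fun l => M (Sum.inl l)) x) atTop (𝓝 0) := by
  -- the suprema
  let E : ∀ i, (L i → ℕ) → X → ℝ := fun i M x => ‖avg (R i) (fun j => f ⟨i, j⟩) M x - F i x‖
  have hEm : ∀ i M, Measurable (E i M) := fun i M =>
    ((avg_meas (hR i) (fun j => hfm _) M).sub (hFm i)).norm
  have hEC : ∀ i M x, E i M x ≤ 2 * C ^ Fintype.card (J i) := fun i M x => by
    refine (norm_sub_le _ _).trans ?_
    rw [two_mul]
    exact add_le_add (avg_bound hC (fun j x => hfC _ x) M x) (hFC i x)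
  let D : ∀ _ : I, ℕ → X → ℝ := fun i N x => ⨆ M : {M : L i → ℕ // ∀ l, N ≤ M l}, E i M.1 x
  have hbdd : ∀ i N x, BddAbove (Set.range fun M : {M : L i → ℕ // ∀ l, N ≤ M l} => E i M.1 x) :=
    fun i N x => ⟨2 * C ^ Fintype.card (J i), by
      rintro _ ⟨M, rfl⟩
      exact hEC i M.1 x⟩
  have hne : ∀ i N, Nonempty {M : L i → ℕ // ∀ l, N ≤ M l} := fun i N => ⟨⟨fun _ => N, fun _ => le_rfl⟩⟩
  have hDm : ∀ i N, Measurable (D i N) := fun i N => Measurable.iSup fun M => hEm i M.1
  have hD0 : ∀ i N x, 0 ≤ D i N x := fun i N x => Real.iSup_nonneg fun M => norm_nonneg _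
  have hDC : ∀ i N x, D i N x ≤ 2 * C ^ Fintype.card (J i) := fun i N x => by
    have := hne i N
    exact ciSup_le fun M => hEC i M.1 x
  have hED : ∀ i N (M : L i → ℕ) x, (∀ l, N ≤ M l) → E i M x ≤ D i N x := fun i N M x hM =>
    le_ciSup (hbdd i N x) ⟨M, hM⟩
  have hD : ∀ i, ∀ᵐ x ∂μ, Tendsto (fun N => D i N x) atTop (𝓝 0) := by
    intro i
    filter_upwards [hF i] with x hx
    rw [Metric.tendsto_atTop]
    intro ε hε
    obtain ⟨M0, hM0⟩ := (Metric.tendsto_atTop.1 hx) (ε / 2) (by positivity)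
    refine ⟨Finset.univ.sup M0, fun N hN => ?_⟩
    rw [dist_zero_right, Real.norm_eq_abs, abs_of_nonneg (hD0 i N x)]
    have := hne i N
    have h1 : D i N x ≤ ε / 2 := ciSup_le fun M => by
      have h2 := hM0 M.1 fun l => (Finset.le_sup (Finset.mem_univ l)).trans (hN.trans (M.2 l))
      rw [dist_eq_norm] at h2
      exact h2.le
    linarith
  have hctl : ∀ᵐ x ∂μ, ∀ i, ∀ ε : ℝ, 0 < ε → ∃ N : ℕ, ∀ᶠ M : K → ℕ in atTop,
      rav M (fun m => D i N (Q i m x)) < ε := by
    rw [ae_all_iff]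
    exact fun i => control (hQ i) (hQc i) (hDm i) (hD0 i) (hDC i) (hD i)
  filter_upwards [hctl] with x hx
  -- constants
  obtain ⟨B, hB1, hB⟩ : ∃ B : ℝ, 1 ≤ B ∧ ∀ i, C ^ Fintype.card (J i) ≤ B := by
    refine ⟨C ^ (Finset.univ.sup fun i => Fintype.card (J i)), one_le_pow₀ hC, fun i => ?_⟩
    exact pow_le_pow_right₀ hC (Finset.le_sup (f := fun i => Fintype.card (J i)) (Finset.mem_univ i))
  have hBpos : 0 < B ^ Fintype.card I := by positivity
  rw [Metric.tendsto_atTop]
  intro ε hε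
  have hε' : 0 < ε / (2 * B ^ Fintype.card I * (Fintype.card I + 1)) := by positivity
  choose N hN using fun i => hx i _ hε'
  have hN' : ∀ᶠ M : K → ℕ in atTop, ∀ i,
      rav M (fun m => D i (N i) (Q i m x)) < ε / (2 * B ^ Fintype.card I * (Fintype.card I + 1)) :=
    Filter.eventually_all.2 hN
  obtain ⟨M1, hM1⟩ := Filter.eventually_atTop.1 hN'
  refine ⟨Sum.elim M1 (fun c => N c.1), fun M hM => ?_⟩
  have hMK : M1 ≤ fun l => M (Sum.inl l) := fun l => hM (Sum.inl l)
  have hML : ∀ i (l : L i), N i ≤ M (Sum.inr ⟨i, l⟩) := fun i l => hM (Sum.inr ⟨i, l⟩)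
  have h1 := hM1 _ hMK
  rw [dist_zero_right, avg_graft]
  have h2 : avg Q F (fun l => M (Sum.inl l)) x =
      bav (fun l => M (Sum.inl l)) fun m => ∏ i, F i (Q i m x) := rfl
  rw [h2, ← bav_sub]
  refine (bav_norm _ _).trans_lt ?_
  have h3 : ∀ m : K → ℕ, ‖∏ i, avg (R i) (fun j => f ⟨i, j⟩) (fun l => M (Sum.inr ⟨i, l⟩)) (Q i m x) -
      ∏ i, F i (Q i m x)‖ ≤ B ^ Fintype.card I * ∑ i, D i (N i) (Q i m x) := by
    intro m
    refine (prod_sub_prod Finset.univ _ _ hB1 (fun i => (avg_bound hC (fun j x => hfC _ x) _ _).trans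
      (hB i)) (fun i => (hFC i _).trans (hB i))).trans ?_
    exact mul_le_mul_of_nonneg_left (Finset.sum_le_sum fun i _ => hED i (N i) _ _ (hML i)) hBpos.le
  refine (rav_mono _ h3).trans_lt ?_
  rw [rav_mul, rav_sum]
  have h4 : ∑ i, rav (fun l => M (Sum.inl l)) (fun m => D i (N i) (Q i m x)) ≤
      ∑ _i : I, ε / (2 * B ^ Fintype.card I * (Fintype.card I + 1)) :=
    Finset.sum_le_sum fun i _ => (h1 i).le
  rw [Finset.sum_const, nsmul_eq_mul] at h4
  have h5 : B ^ Fintype.card I * ∑ i, rav (fun l => M (Sum.inl l)) (fun m => D i (N i) (Q i m x)) ≤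
      B ^ Fintype.card I * (Fintype.card I * (ε / (2 * B ^ Fintype.card I * (Fintype.card I + 1)))) :=
    mul_le_mul_of_nonneg_left h4 hBpos.le
  refine h5.trans_lt ?_
  have h6 : B ^ Fintype.card I * ((Fintype.card I : ℝ) *
      (ε / (2 * B ^ Fintype.card I * (Fintype.card I + 1)))) =
      ε * ((Fintype.card I : ℝ) / (2 * (Fintype.card I + 1))) := by
    field_simp
  rw [h6]
  have h7 : (Fintype.card I : ℝ) / (2 * (Fintype.card I + 1)) < 1 := by
    rw [div_lt_one (by positivity)]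
    have : (0 : ℝ) ≤ Fintype.card I := Nat.cast_nonneg _
    linarith
  calc ε * ((Fintype.card I : ℝ) / (2 * (Fintype.card I + 1))) < ε * 1 :=
        mul_lt_mul_of_pos_left h7 hε
    _ = ε := mul_one ε

/-- bounded representatives -/
theorem exists_rep {f : X → ℂ} (hf : AEStronglyMeasurable f μ) {c : ℝ} (hc : 0 ≤ c)
    (hb : ∀ᵐ x ∂μ, ‖f x‖ ≤ c) :
    ∃ g : X → ℂ, Measurable g ∧ f =ᵐ[μ] g ∧ ∀ x, ‖g x‖ ≤ c := by
  classical
  have hm : Measurable (hf.mk f) := hf.stronglyMeasurable_mk.measurable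
  refine ⟨fun x => if ‖hf.mk f x‖ ≤ c then hf.mk f x else 0,
    Measurable.ite (measurableSet_le hm.norm measurable_const) hm measurable_const, ?_, fun x => ?_⟩
  · filter_upwards [hf.ae_eq_mk, hb] with x h1 h2
    rw [← h1, if_pos h2]
  · show ‖if ‖hf.mk f x‖ ≤ c then hf.mk f x else 0‖ ≤ c
    split_ifs with h
    · exact h
    · simpa using hc

theorem bound_of_memLp {f : X → ℂ} (hf : MemLp f ⊤ μ) :
    ∀ᵐ x ∂μ, ‖f x‖ ≤ (eLpNormEssSup f μ).toReal := by
  have hfb := hf.2
  rw [eLpNorm_exponent_top] at hfb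
  filter_upwards [ae_le_eLpNormEssSup (f := f) (μ := μ)] with x hx
  have := ENNReal.toReal_mono hfb.ne hx
  simpa using this

theorem graft_lim {Q : I → (K → ℕ) → X → X} {R : ∀ i, J i → (L i → ℕ) → X → X}
    (hQ : ∀ i m, MeasurePreserving (Q i m) μ μ) (hR : ∀ i j m, MeasurePreserving (R i j m) μ μ)
    (hQc : ∀ i, Convergent μ (fun _ : Unit => Q i)) {f : (Σ i, J i) → X → ℂ}
    (hf : ∀ c, MemLp (f c) ⊤ μ) {F : I → X → ℂ}
    (hF : ∀ i, ∀ᵐ x ∂μ, Tendsto (fun M : L i → ℕ => avg (R i) (fun j => f ⟨i, j⟩) M x) atTop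
      (𝓝 (F i x))) :
    (∀ i, MemLp (F i) ⊤ μ) ∧ ∀ᵐ x ∂μ, Tendsto (fun M : (K ⊕ Σ i, L i) → ℕ =>
      avg (graft Q R) f M x - avg Q F (fun l => M (Sum.inl l)) x) atTop (𝓝 0) := by
  classical
  let C : ℝ := 1 + ∑ c, (eLpNormEssSup (f c) μ).toReal
  have hC : 1 ≤ C := le_add_of_nonneg_right (Finset.sum_nonneg fun _ _ => ENNReal.toReal_nonneg)
  have hC0 : 0 ≤ C := by linarith
  have hfC : ∀ c, ∀ᵐ x ∂μ, ‖f c x‖ ≤ C := fun c => by
    filter_upwards [bound_of_memLp (hf c)] with x hx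
    refine hx.trans ?_
    have h1 := Finset.single_le_sum (f := fun c => (eLpNormEssSup (f c) μ).toReal)
      (fun _ _ => ENNReal.toReal_nonneg) (Finset.mem_univ c)
    linarith
  choose f' hf'm hff' hf'C using fun c => exists_rep (hf c).1 hC0 (hfC c)
  have hF' : ∀ i, ∀ᵐ x ∂μ, Tendsto (fun M : L i → ℕ => avg (R i) (fun j => f' ⟨i, j⟩) M x) atTop
      (𝓝 (F i x)) := by
    intro i
    filter_upwards [hF i, avg_congr (hR i) (fun j => hff' ⟨i, j⟩)] with x h1 h2
    exact h1.congr h2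
  have hdiag : ∀ i, Tendsto (fun n : ℕ => (fun _ : L i => n)) atTop atTop := fun i =>
    tendsto_atTop_atTop.2 fun b => ⟨Finset.univ.sup b, fun a ha l =>
      (Finset.le_sup (Finset.mem_univ l)).trans ha⟩
  have hFm : ∀ i, AEStronglyMeasurable (F i) μ := fun i =>
    aestronglyMeasurable_of_tendsto_ae atTop
      (fun n => (avg_meas (hR i) (fun j => hf'm ⟨i, j⟩) (fun _ => n)).aestronglyMeasurable) (by
        filter_upwards [hF' i] with x hx
        exact hx.comp (hdiag i))
  have hFC : ∀ i, ∀ᵐ x ∂μ, ‖F i x‖ ≤ C ^ Fintype.card (J i) := fun i => by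
    filter_upwards [hF' i] with x hx
    exact le_of_tendsto' hx.norm fun M => avg_bound hC (fun j x => hf'C _ x) M x
  choose F' hF'm hFF' hF'C using fun i => exists_rep (hFm i) (by positivity) (hFC i)
  refine ⟨fun i => memLp_top_of_bound (hFm i) _ (hFC i), ?_⟩
  have h1 := graft_core hQ hR hQc hC hf'm hf'C hF'm hF'C fun i => by
    filter_upwards [hF' i, hFF' i] with x h2 h3
    rw [← h3]
    exact h2
  have hg : ∀ c m, MeasurePreserving (graft Q R c m) μ μ := fun c m =>
    (hR c.1 c.2 _).comp (hQ c.1 _)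
  filter_upwards [h1, avg_congr hg hff', avg_congr hQ hFF'] with x h2 h3 h4
  refine h2.congr fun M => ?_
  rw [h3, h4]

/-- **Grafting**: the limits. -/
theorem graft_limit {Q : I → (K → ℕ) → X → X} {R : ∀ i, J i → (L i → ℕ) → X → X}
    (hQ : ∀ i m, MeasurePreserving (Q i m) μ μ) (hR : ∀ i j m, MeasurePreserving (R i j m) μ μ)
    (hQc : ∀ i, Convergent μ (fun _ : Unit => Q i)) {f : (Σ i, J i) → X → ℂ}
    (hf : ∀ c, MemLp (f c) ⊤ μ) {F : I → X → ℂ} {g : X → ℂ}
    (hF : ∀ i, ∀ᵐ x ∂μ, Tendsto (fun M : L i → ℕ => avg (R i) (fun j => f ⟨i, j⟩) M x) atTop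
      (𝓝 (F i x)))
    (hg : ∀ᵐ x ∂μ, Tendsto (fun M : K → ℕ => avg Q F M x) atTop (𝓝 (g x))) :
    ∀ᵐ x ∂μ, Tendsto (fun M : (K ⊕ Σ i, L i) → ℕ => avg (graft Q R) f M x) atTop (𝓝 (g x)) := by
  have hproj : Tendsto (fun (M : (K ⊕ Σ i, L i) → ℕ) (l : K) => M (Sum.inl l)) atTop atTop :=
    tendsto_atTop_atTop.2 fun b => ⟨Sum.elim b (fun _ => 0), fun a ha l => ha (Sum.inl l)⟩
  filter_upwards [(graft_lim hQ hR hQc hf hF).2, hg] with x h1 h2
  have h3 := h1.add (h2.comp hproj)
  rw [zero_add] at h3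
  refine h3.congr fun M => ?_
  show avg (graft Q R) f M x - avg Q F (fun l => M (Sum.inl l)) x +
    avg Q F (fun l => M (Sum.inl l)) x = _
  ring

/-- **Grafting**: convergent families are closed under grafting. -/
theorem graft_convergent {Q : I → (K → ℕ) → X → X} {R : ∀ i, J i → (L i → ℕ) → X → X}
    (hQ : ∀ i m, MeasurePreserving (Q i m) μ μ) (hR : ∀ i j m, MeasurePreserving (R i j m) μ μ)
    (hQc : Convergent μ Q) (hRc : ∀ i, Convergent μ (R i)) : Convergent μ (graft Q R) := by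
  intro f hf
  have hF : ∀ i, ∀ᵐ x ∂μ, Tendsto (fun M : L i → ℕ => avg (R i) (fun j => f ⟨i, j⟩) M x) atTop
      (𝓝 (limUnder atTop (fun M : L i → ℕ => avg (R i) (fun j => f ⟨i, j⟩) M x))) := by
    intro i
    filter_upwards [hRc i (fun j => f ⟨i, j⟩) fun j => hf _] with x hx
    exact tendsto_nhds_limUnder hx
  obtain ⟨h1, _⟩ := graft_lim hQ hR (single hQc) hf hF
  have h2 := hQc _ h1
  have h3 := graft_limit hQ hR (single hQc) hf (g := fun x => limUnder atTop (fun M : K → ℕ =>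
    avg Q (fun i x => limUnder atTop (fun M : L i → ℕ => avg (R i) (fun j => f ⟨i, j⟩) M x)) M x))
    hF (by
      filter_upwards [h2] with x hx
      exact tendsto_nhds_limUnder hx)
  filter_upwards [h3] with x hx
  exact ⟨_, hx⟩

end Two

end Pool.Agent.Helper34.GR
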